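import Pool.Agent.H947R2.DS.Stubs

set_option autoImplicit false
open Finset
open scoped Pointwise

namespace H947DS

/-- the sign of a Boolean -/
def sgB (b : Bool) : ℤ := if b then 1 else -1

lemma sgB_cases (b : Bool) : sgB b = 1 ∨ sgB b = -1 := by
  cases b <;> simp [sgB]

lemma orth_count {n : ℕ} (x : Fin n → ℤ) :
    2 ^ n ≤ 2 ^ (nzZ x) *
      (univ.filter (fun ε : Fin n → Bool => ∀ i, 0 ≤ sgB (ε i) * x i)).card := by
  have h1 : (univ.filter (fun ε : Fin n → Bool => ∀ i, 0 ≤ sgB (ε i) * x i)) =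
      Fintype.piFinset (fun i => univ.filter (fun b : Bool => 0 ≤ sgB b * x i)) := by
    ext ε
    simp [Fintype.mem_piFinset]
  rw [h1, Fintype.card_piFinset]
  have h2 : (2 : ℕ) ^ (nzZ x) = ∏ i : Fin n, (if x i ≠ 0 then 2 else 1) := by
    unfold nzZ
    rw [Finset.prod_ite]
    simp
  have h3 : (2 : ℕ) ^ n = ∏ _i : Fin n, 2 := by simp
  rw [h2, h3, ← Finset.prod_mul_distrib]
  apply Finset.prod_le_prod'
  intro i _
  by_cases hx : x i = 0
  · have h4 : (univ.filter (fun b : Bool => 0 ≤ sgB b * x i)) = univ := by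
      apply Finset.filter_true_of_mem
      intro b _
      rw [hx, mul_zero]
    rw [h4]
    simp [hx]
  · have h4 : 1 ≤ (univ.filter (fun b : Bool => 0 ≤ sgB b * x i)).card := by
      rw [Nat.one_le_iff_ne_zero, Finset.card_ne_zero]
      rcases lt_or_gt_of_ne hx with h | h
      · refine ⟨false, ?_⟩
        rw [Finset.mem_filter]
        refine ⟨Finset.mem_univ _, ?_⟩
        simp only [sgB]
        simp
        omega
      · refine ⟨true, ?_⟩
        rw [Finset.mem_filter]
        refine ⟨Finset.mem_univ _, ?_⟩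
        simp only [sgB]
        simp
        omega
    rw [if_pos hx]
    omega

theorem ORTH_proof : St_ORTH := by
  intro n d T hT
  have hsum : ∑ _ε : Fin n → Bool, T.card ≤
      ∑ ε : Fin n → Bool, 2 ^ d * (T.filter (fun x => ∀ i, 0 ≤ sgB (ε i) * x i)).card := by
    have h1 : ∑ ε : Fin n → Bool, (T.filter (fun x => ∀ i, 0 ≤ sgB (ε i) * x i)).card =
        ∑ x ∈ T, (univ.filter (fun ε : Fin n → Bool => ∀ i, 0 ≤ sgB (ε i) * x i)).card := by
      simp only [Finset.card_filter]
      rw [Finset.sum_comm]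
    rw [← Finset.mul_sum, h1, Finset.mul_sum, Finset.sum_const, Finset.card_univ,
      Fintype.card_fun, Fintype.card_bool, Fintype.card_fin, smul_eq_mul]
    calc 2 ^ n * T.card = ∑ _x ∈ T, 2 ^ n := by rw [Finset.sum_const, smul_eq_mul, mul_comm]
      _ ≤ _ := by
        apply Finset.sum_le_sum
        intro x hx
        refine (orth_count x).trans (Nat.mul_le_mul_right _ ?_)
        exact Nat.pow_le_pow_right (by norm_num) (hT x hx)
  obtain ⟨ε, -, hε⟩ := Finset.exists_le_of_sum_le Finset.univ_nonempty hsum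
  exact ⟨fun i => sgB (ε i), fun i => sgB_cases _, hε⟩

end H947DS
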